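import Pool.Agent.H85.Split

set_option autoImplicit false

namespace Pool.Agent.Results.MP_7b70e8_gt.SplitLambda

open Pool.Agent.H85.TauDefs Pool.Agent.H85.SplitDefs

/-- `Split(Omega, Tau)` implies `Split(Lambda, Lambda)` for every set of reals. -/
theorem result (X : Set ℝ) (hX : Split (Omega X) (Tau X)) : Split (Lambda X) (Lambda X) :=
  Pool.Agent.H85.Split.split_lambda hX

end Pool.Agent.Results.MP_7b70e8_gt.SplitLambda
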